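import Pool.Agent.V11219.TowMain

/-!
# The algebraic Sato–Tate conjecture for motives dominated by products

Let `W` be a Weil cohomology theory with algebraically closed coefficients (`ℓ`-adic cohomology with
coefficients in the algebraic closure of `ℚ_ℓ`, which is singular cohomology with extended
coefficients) on a class of smooth projective varieties, and let `Γ` be a group which acts on the
cohomology of the varieties `X_i` and `Z` with the formal properties of the Galois group `Γ_k` of a
finitely generated field `k` of characteristic zero (`χ` is the action on the Tate twists), or of the
kernel of its cyclotomic character (with `χ = 1`).

Let `D₀` be **arbitrary** groups `D₀(A)` of cohomology classes, for the varieties `A`. Let `D = generated D₀` be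
the smallest system of groups `D(A)` of classes which contain the `D₀(A)` and the classes of algebraic
cycles and are stable under products, pull-backs and push-forwards. If the `D₀(A)` are groups of
classes in the singular cohomology with rational coefficients, then so are the groups `D(A)`, and they
**do not depend on** `ℓ`.

Let `X_i` be finitely many varieties of odd dimension for which numerical and homological equivalence
coincide (for example curves, hypersurfaces, complete intersections), whose transcendental cohomology
`T_i` (the orthogonal complement of the algebraic classes) is concentrated in the middle degree and
irreducible under all subgroups of finite index of `Γ`. Assume: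

* **(distinct)** for `i ≠ j` the representations `T_i` and `T_j` of `Γ` are not isomorphic up to scalars;
* **(small defects)** let `N` be the set of the `g ∈ Γ` with `χ(g) = 1` which act trivially on the
  cohomology of `Z` and with `(g - 1) ^ 2 = 0` on **all** `T_j`. For every `i` some `g ∈ N` has defects
  on `T_i` without a common prime factor, or the defect two; here the defects of `g` are the rank of
  `g - 1` on `T_i` and the multiplicities of the nonzero eigenvalues of `(g - 1) (g' - 1)` on `T_i`, for
  `g' ∈ N`. (Or: the conjugates of some `g ∈ N` act irreducibly on `T_i` and the defects of all
  elements of `N` have no common prime factor.)

The elements of `N` are, for instance, the elements of the inertia groups at the discrete valuations `v`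
of `k` at which `Z` has good reduction and the `X_j` are curves with stable reduction, or hypersurfaces
whose reduction has ordinary double points; all `X_j` may have bad reduction at the same `v`.

Let `T` be a product of `Z` with arbitrary powers of the `X_i`. Then the following are **equivalent**:

1. for all varieties `B` dominated by `T` all potentially semi-invariant classes of `B` are spanned by
   elements of `D(B)`, and for **all** equivariant direct factors `M` of the cohomology of `B` of even
   degree (an equivariant map `s` from `M` to the cohomology and a map `f` with `f ∘ s = 1`) the elements of
   `M` which are invariant under a subgroup of finite index are in the image under `f` of the space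
   spanned by `D(B)`;
2. all potentially semi-invariant classes of `Z` are spanned by elements of `D(Z)`.

Application: if a motive `M_0` which is a direct factor of the motive of a variety has the property of
the algebraic Sato–Tate conjecture (its monodromy groups come from one `ℚ`-group), let `D₀` be the rational
invariants of this group in the powers `Z` of the variety. Then 2. is true for the part of the
cohomology generated by `M_0`, and 1. describes the potentially invariant classes of all motives which
are dominated by products of `Z` and the `X_i` by rational classes independent of `ℓ`; so the reductive
identity components of their monodromy groups come from `ℚ`-groups as well.

Proof. By the theory of extremal elements of Lie algebras (see `MP_0d42ed_ag.SemistableProducts`) and the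
first fundamental theorem a potentially semi-invariant class on the product of a power of `X_i` with `A`
is a combination of products of algebraic classes of the power with potentially semi-invariant classes
of `A`. If `x` is a potentially semi-invariant class of `B` and `g : T → B` is dominant, then `g^* x` belongs
to the span of `D(T)`, and `x = g_*(a g^* x)` for an algebraic class `a`.
-/

universe u

namespace Pool.Agent.Results.MP_92d903_ag.SemistableMotives

open Pool.Agent.H914 Pool.Agent.H281R3.HT Pool.Agent.TH125.Gal Pool.Agent.V11219.Min
  Pool.Agent.V11219.Cls Pool.Agent.V11219.Dm

/-- **Potentially invariant classes of motives dominated by products, generated systems.** -/
theorem result {k : Type u} [Field k] {𝒱 : VarClass k} {ops : CycleOps 𝒱}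
    (W : WeilCohomology.{u, 0} ops) [IsAlgClosed W.K] {Γ : Type} [Group Γ] (χ : CharOf W Γ)
    (D₀ : ClassGroups W) {ι : Type} [Finite ι] (X : ι → GVar W Γ) (Z : GVar W Γ)
    (h : Family χ X Z) (S : Set ι) (T : GVar W Γ) (hT : Tow X Z S T) :
    (∀ B, Dominates T B → TateIn χ (spanned (generated D₀)) B ∧
      FactorsTate χ (spanned (generated D₀)) B) ↔ TateIn χ (spanned (generated D₀)) Z :=
  all_factors (groupSystem_generated D₀).classSystem h hT

end Pool.Agent.Results.MP_92d903_ag.SemistableMotives
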